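import Pool.Agent.Run7.h630.QF.Iface
import Pool.Agent.Run7.h630.QC.Q11

/-!
# The equations for the characteristic function, for fixed centre elements

Project QF (helper630), piece R7.
-/

open MeasureTheory Matrix Filter Topology
open scoped Matrix.Norms.Frobenius ComplexConjugate

namespace Run7.h882.QF

open Run7.h4.YM Run7.h630.MQ Run7.h630.QC Run7.h630.ML Run7.h630.QF Run7.h370.MQ Run7.h370.QC

set_option linter.unusedSectionVars false
set_option linter.unusedVariables false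
set_option linter.style.haveILetI false

noncomputable section

variable {N n L l : ℕ}

/-! ### bounds for the coefficients -/

lemma KC_bound {a b : ℕ} [NeZero a] [NeZero b] {x0 : ℝ} (hx : 0 < x0)
    (g : ZMod a × ZMod b → ℂ) {B : ℝ} (h : ∀ u, ‖Run7.h630.ML.KC x0 g u‖ ≤ B) :
    ∀ u, ‖g u‖ ≤ B / x0 := by
  obtain ⟨u0, hu0⟩ := Finite.exists_max fun u => ‖g u‖
  intro u
  refine (hu0 u).trans ?_
  rw [le_div_iff₀ hx]
  have h1 := h u0
  unfold Run7.h630.ML.KC at h1
  have e : ((4 + x0 : ℝ) : ℂ) * g u0 =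
      ((4 + x0) * g u0 - g (u0 + (1, 0)) - g (u0 - (1, 0)) - g (u0 + (0, 1)) -
        g (u0 - (0, 1))) +
      (g (u0 + (1, 0)) + g (u0 - (1, 0)) + g (u0 + (0, 1)) + g (u0 - (0, 1))) := by
    push_cast
    ring
  have h2 : (4 + x0) * ‖g u0‖ ≤ B + (‖g u0‖ + ‖g u0‖ + ‖g u0‖ + ‖g u0‖) := by
    calc (4 + x0) * ‖g u0‖ = ‖((4 + x0 : ℝ) : ℂ) * g u0‖ := by
          rw [norm_mul, Complex.norm_real, Real.norm_of_nonneg (by linarith)]
      _ ≤ ‖(4 + x0) * g u0 - g (u0 + (1, 0)) - g (u0 - (1, 0)) - g (u0 + (0, 1)) -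
            g (u0 - (0, 1))‖ +
          ‖g (u0 + (1, 0)) + g (u0 - (1, 0)) + g (u0 + (0, 1)) + g (u0 - (0, 1))‖ := by
          rw [e]
          exact norm_add_le _ _
      _ ≤ B + (‖g (u0 + (1, 0))‖ + ‖g (u0 - (1, 0))‖ + ‖g (u0 + (0, 1))‖ +
            ‖g (u0 - (0, 1))‖) := add_le_add h1 norm_add₄_le
      _ ≤ _ := add_le_add le_rfl (add_le_add (add_le_add (add_le_add (hu0 _) (hu0 _))
          (hu0 _)) (hu0 _))
  nlinarith

lemma int_ge {N : ℕ} [NeZero N] {z : ℤ} {x : ℝ} (hx : x = 2 * Real.pi * ((z : ℝ) / N))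
    (h : 0 < x) : 2 * Real.pi / N ≤ x := by
  have hN : (0 : ℝ) < N := by exact_mod_cast NeZero.pos N
  have hpi := Real.pi_pos
  have hz : 0 < z := by
    by_contra hz
    have h1 : (z : ℝ) ≤ 0 := by exact_mod_cast not_lt.1 hz
    have h2 : (z : ℝ) / (N : ℝ) ≤ 0 := by
      rw [div_le_iff₀ hN, zero_mul]
      exact h1
    rw [hx] at h
    nlinarith
  have h1 : (1 : ℝ) ≤ z := by exact_mod_cast hz
  have h2 : 2 * Real.pi / (N : ℝ) = 2 * Real.pi * (1 / (N : ℝ)) := by ring
  have h3 : (1 : ℝ) / (N : ℝ) ≤ (z : ℝ) / (N : ℝ) := div_le_div_of_nonneg_right h1 hN.le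
  rw [hx, h2]
  exact mul_le_mul_of_nonneg_left h3 (by positivity)

lemma th_ge [NeZero N] [NeZero l] {x : ℝ} (h1 : 2 * Real.pi / N ≤ x) (h2 : |x| < Real.pi * l) :
    16 / ((N : ℝ) ^ 2 * (l : ℝ) ^ 2) ≤ 2 - 2 * Real.cos (x / l) := by
  have hN : (0 : ℝ) < N := by exact_mod_cast NeZero.pos N
  have hl : (0 : ℝ) < l := by exact_mod_cast NeZero.pos l
  have hpi := Real.pi_pos
  have h3 : |x / l| ≤ Real.pi := by
    rw [abs_div, abs_of_pos hl, div_le_iff₀ hl]
    exact h2.le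
  have h4 := Real.cos_le_one_sub_mul_cos_sq h3
  have h5 : (2 * Real.pi / N / l) ^ 2 ≤ (x / l) ^ 2 := by
    have : 0 ≤ 2 * Real.pi / N / l := by positivity
    gcongr
  have h6 : 16 / ((N : ℝ) ^ 2 * (l : ℝ) ^ 2) = 4 / Real.pi ^ 2 * (2 * Real.pi / N / l) ^ 2 := by
    field_simp
    ring
  have h7 : 4 / Real.pi ^ 2 * (2 * Real.pi / N / l) ^ 2 ≤ 4 / Real.pi ^ 2 * (x / l) ^ 2 :=
    mul_le_mul_of_nonneg_left h5 (by positivity)
  have h8 : 4 / Real.pi ^ 2 * (x / l) ^ 2 = 2 * (2 / Real.pi ^ 2 * (x / l) ^ 2) := by ring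
  linarith

lemma xm_ge [NeZero N] [NeZero l] {k : ℕ} {ι : Ix N}
    (h1 : 0 < mom N k ι 2 ∨ (mom N k ι 2 = 0 ∧ 0 < mom N k ι 3))
    (h2 : |mom N k ι 2| < Real.pi * l ∧ |mom N k ι 3| < Real.pi * l) :
    16 / ((N : ℝ) ^ 2 * (l : ℝ) ^ 2) ≤ xm N k l ι := by
  have hN : (N : ℝ) ≠ 0 := by exact_mod_cast NeZero.ne N
  have e2 : mom N k ι 2 = 2 * Real.pi *
      (((ι.2.1 * N - k * ((ι.1.2 : ℕ) : ℤ) : ℤ) : ℝ) / N) := by
    have : mom N k ι 2 = 2 * Real.pi * (ι.2.1 - k * ((ι.1.2 : ℕ) : ℝ) / N) := rfl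
    rw [this]
    push_cast
    field_simp
  have e3 : mom N k ι 3 = 2 * Real.pi *
      (((ι.2.2 * N + k * ((ι.1.1 : ℕ) : ℤ) : ℤ) : ℝ) / N) := by
    have : mom N k ι 3 = 2 * Real.pi * (ι.2.2 + k * ((ι.1.1 : ℕ) : ℝ) / N) := rfl
    rw [this]
    push_cast
    field_simp
  have c2 := Real.cos_le_one (mom N k ι 2 / l)
  have c3 := Real.cos_le_one (mom N k ι 3 / l)
  unfold xm
  rcases h1 with h1 | ⟨-, h1⟩
  · have := th_ge (l := l) (int_ge e2 h1) h2.1
    linarith
  · have := th_ge (l := l) (int_ge e3 h1) h2.2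
    linarith

lemma exp_sub_le (x : ℝ) : ‖Complex.exp (-(Complex.I * (x : ℂ))) - 1‖ ≤ 2 := by
  refine (norm_sub_le _ _).trans ?_
  have : -(Complex.I * (x : ℂ)) = ((-x : ℝ) : ℂ) * Complex.I := by
    push_cast
    ring
  rw [this, Complex.norm_exp_ofReal_mul_I, norm_one]
  norm_num

lemma dh_bound [NeZero n] [NeZero L] {k : ℕ} {h : Ix N → Fin 4 → Fin 4 → ZMod n × ZMod L → ℂ}
    {ι : Ix N} {M : ℝ} (hM : ∀ i j u, ‖h ι i j u‖ ≤ M) (b : Fin 4) (u : ZMod n × ZMod L) :
    ‖dh k l h ι b u‖ ≤ 8 * M := by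
  unfold dh
  have hM0 : 0 ≤ M := (norm_nonneg _).trans (hM 0 0 0)
  have a1 := (norm_sub_le (h ι 0 b (u - (1, 0))) (h ι 0 b u)).trans
    (add_le_add (hM 0 b (u - (1, 0))) (hM 0 b u))
  have a2 := (norm_sub_le (h ι 1 b (u - (0, 1))) (h ι 1 b u)).trans
    (add_le_add (hM 1 b (u - (0, 1))) (hM 1 b u))
  have a3 : ‖(Complex.exp (-(Complex.I * ((mom N k ι 2 / l : ℝ) : ℂ))) - 1) * h ι 2 b u‖ ≤
      2 * M := by
    rw [norm_mul]
    exact mul_le_mul (exp_sub_le _) (hM 2 b u) (norm_nonneg _) (by norm_num)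
  have a4 : ‖(Complex.exp (-(Complex.I * ((mom N k ι 3 / l : ℝ) : ℂ))) - 1) * h ι 3 b u‖ ≤
      2 * M := by
    rw [norm_mul]
    exact mul_le_mul (exp_sub_le _) (hM 3 b u) (norm_nonneg _) (by norm_num)
  refine norm_add₄_le.trans ?_
  linarith

lemma norm_wave (k : ℕ) (ι : Ix N) (y : ZMod l × ZMod l) : ‖wave N k l ι y‖ = 1 := by
  unfold wave
  rw [mul_comm, Complex.norm_exp_ofReal_mul_I]

lemma md_bound {k : ℕ} {J : Finset (Ix N)}
    {h : Ix N → Fin 4 → Fin 4 → ZMod n × ZMod L → ℂ} {M : ℝ} (hM0 : 0 ≤ M)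
    (hM : ∀ ι i j u, ‖h ι i j u‖ ≤ M) (α : Col N) (i j : Fin 4) (x : Site n L l) :
    ‖md k J h α i j x‖ ≤ J.card * M := by
  unfold Run7.h630.QF.md
  refine (norm_sum_le _ _).trans ?_
  have h1 : ∀ ι ∈ J.filter fun ι => ι.1 = α,
      ‖h ι i j (x.1, x.2.1) * wave N k l ι x.2.2‖ ≤ M := by
    intro ι _
    rw [norm_mul, norm_wave, mul_one]
    exact hM _ _ _ _
  refine (Finset.sum_le_card_nsmul _ _ _ h1).trans ?_
  rw [nsmul_eq_mul]
  refine mul_le_mul_of_nonneg_right ?_ hM0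
  exact_mod_cast Finset.card_filter_le _ _

lemma mo_bound {k : ℕ} {J : Finset (Ix N)} {w : Ix N → Fin 4 → ZMod n × ZMod L → ℂ} {M : ℝ}
    (hM0 : 0 ≤ M) (hM : ∀ ι ∈ J, ∀ i u, ‖w ι i u‖ ≤ M) (α : Col N) (i : Fin 4)
    (x : Site n L l) : ‖mo k J w α i x‖ ≤ J.card * M := by
  unfold mo
  refine (norm_sum_le _ _).trans ?_
  have h1 : ∀ ι ∈ J.filter fun ι => ι.1 = α,
      ‖w ι i (x.1, x.2.1) * wave N k l ι x.2.2‖ ≤ M := by
    intro ι hι
    rw [norm_mul, norm_wave, mul_one]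
    exact hM _ (Finset.mem_filter.1 hι).1 _ _
  refine (Finset.sum_le_card_nsmul _ _ _ h1).trans ?_
  rw [nsmul_eq_mul]
  refine mul_le_mul_of_nonneg_right ?_ hM0
  exact_mod_cast Finset.card_filter_le _ _

lemma md_anti {k : ℕ} {J : Finset (Ix N)} {h : Ix N → Fin 4 → Fin 4 → ZMod n × ZMod L → ℂ}
    (hh : ∀ ι i j u, h ι j i u = -h ι i j u) (α : Col N) (i j : Fin 4) (x : Site n L l) :
    md k J h α j i x = -md k J h α i j x := by
  unfold Run7.h630.QF.md
  rw [← Finset.sum_neg_distrib]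
  refine Finset.sum_congr rfl fun ι _ => ?_
  rw [hh, neg_mul]

lemma ps_anti (k : ℕ) (q : ZMod n × ZMod L → ZMod N) (α : Col N) (U : Link n L l → SU N)
    (i j : Fin 4) (x : Site n L l) : ps k q α U j i x = -ps k q α U i j x := by
  unfold ps
  rcases lt_trichotomy i j with h | h | h
  · rw [if_neg h.not_gt, if_pos h, if_pos h]
  · subst h
    simp
  · rw [if_pos h, if_neg h.not_gt, if_pos h, neg_neg]

/-! ### continuity -/

lemma cont_Ph [NeZero N] [NeZero n] [NeZero L] [NeZero l] (k : ℕ)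
    (q : ZMod n × ZMod L → ZMod N) (f : Col N → Fin 4 → Fin 4 → Site n L l → ℂ) :
    Continuous fun U : Link n L l → SU N => Ph k q f U := by
  unfold Ph
  refine continuous_finsetSum _ fun α _ => continuous_finsetSum _ fun x _ =>
    continuous_finsetSum _ fun i _ => continuous_finsetSum _ fun j _ => ?_
  exact Complex.continuous_re.comp (continuous_const.mul (cont_ph2 k q α i j x))

lemma cont_Ka [NeZero N] (a : Col N → Fin 4 → Site n L l → ℂ) (e : Link n L l) :
    Continuous fun U : Link n L l → SU N => Ka a U e := by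
  unfold Ka
  refine cont_pr (continuous_finsetSum _ fun α _ => ?_)
  exact (cont_Drv α e.2).const_smul (a α e.1 e.2)

/-! ### the derivative of the action -/

lemma dSq_bound [NeZero N] [NeZero n] [NeZero L] [NeZero l] {k : ℕ}
    {q : ZMod n × ZMod L → ZMod N} {U : Link n L l → SU N}
    {f : Col N → Fin 4 → Fin 4 → Site n L l → ℂ} {a : Col N → Fin 4 → Site n L l → ℂ}
    {A B : ℝ} (hB : 0 ≤ B) (ha : ∀ α : Col N, α ≠ (0, 0) → ∀ b x, po k f α b x = a α b x)
    (h6 : |dSq k q U (Ka a U) + ∑ α ∈ (Finset.univ : Finset (Col N)).erase (0, 0),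
      ∑ x : Site n L l, ∑ i : Fin 4, ∑ j ∈ Finset.Ioi i,
        ((nb k α i (a α j) x - nb k α j (a α i) x) * ph2 k q α U i j x).re| ≤ A)
    (h3 : ∀ α : Col N, α ≠ (0, 0) → ‖∑ x : Site n L l, ∑ i : Fin 4, ∑ j ∈ Finset.Ioi i,
      (nb k α i (pot k α (f α) j) x - nb k α j (pot k α (f α) i) x - f α i j x) *
        conj (ps k q α U i j x)‖ ≤ B) :
    |dSq k q U (Ka a U) + Ph k q f U| ≤ A + N ^ 2 * B := by
  obtain ⟨D, hD⟩ : ∃ D : Col N → ℝ, D = fun α => ∑ x : Site n L l, ∑ i : Fin 4,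
    ∑ j ∈ Finset.Ioi i, ((nb k α i (a α j) x - nb k α j (a α i) x) *
      ph2 k q α U i j x).re := ⟨_, rfl⟩
  obtain ⟨P, hP⟩ : ∃ P : Col N → ℝ, P = fun α => ∑ x : Site n L l, ∑ i : Fin 4,
    ∑ j ∈ Finset.Ioi i, (f α i j x * ph2 k q α U i j x).re := ⟨_, rfl⟩
  have e1 : Ph k q f U = ∑ α ∈ (Finset.univ : Finset (Col N)).erase (0, 0), P α := by
    rw [hP]
    rfl
  have e2 : ∑ α ∈ (Finset.univ : Finset (Col N)).erase (0, 0),
      ∑ x : Site n L l, ∑ i : Fin 4, ∑ j ∈ Finset.Ioi i,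
        ((nb k α i (a α j) x - nb k α j (a α i) x) * ph2 k q α U i j x).re =
      ∑ α ∈ (Finset.univ : Finset (Col N)).erase (0, 0), D α := by
    rw [hD]
  rw [e2] at h6
  have h7 : ∀ α ∈ (Finset.univ : Finset (Col N)).erase (0, 0), |P α - D α| ≤ B := by
    intro α hα
    have hα' := Finset.ne_of_mem_erase hα
    have h8 := (Complex.abs_re_le_norm _).trans (h3 α hα')
    have e3 : (∑ x : Site n L l, ∑ i : Fin 4, ∑ j ∈ Finset.Ioi i,
        (nb k α i (pot k α (f α) j) x - nb k α j (pot k α (f α) i) x - f α i j x) *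
          conj (ps k q α U i j x)).re = D α - P α := by
      rw [hD, hP]
      beta_reduce
      simp only [Complex.re_sum]
      rw [← Finset.sum_sub_distrib]
      refine Finset.sum_congr rfl fun x _ => ?_
      rw [← Finset.sum_sub_distrib]
      refine Finset.sum_congr rfl fun i _ => ?_
      rw [← Finset.sum_sub_distrib]
      refine Finset.sum_congr rfl fun j hj => ?_
      have hij : i < j := Finset.mem_Ioi.1 hj
      have e4 : conj (ps k q α U i j x) = ph2 k q α U i j x := by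
        unfold ps
        rw [if_pos hij, Complex.conj_conj]
      have e5 : ∀ b, pot k α (f α) b = a α b := fun b => funext fun y => ha α hα' b y
      rw [e4, e5, e5, ← Complex.sub_re]
      congr 1
      ring
    rw [e3, abs_sub_comm] at h8
    exact h8
  have h9 : |Ph k q f U - ∑ α ∈ (Finset.univ : Finset (Col N)).erase (0, 0), D α| ≤
      N ^ 2 * B := by
    rw [e1, ← Finset.sum_sub_distrib]
    refine (Finset.abs_sum_le_sum_abs _ _).trans ?_
    refine (Finset.sum_le_card_nsmul _ _ _ h7).trans ?_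
    rw [nsmul_eq_mul]
    refine mul_le_mul_of_nonneg_right ?_ hB
    have : ((Finset.univ : Finset (Col N)).erase (0, 0)).card ≤ N ^ 2 := by
      refine (Finset.card_le_card (Finset.erase_subset _ _)).trans ?_
      rw [Finset.card_univ, Fintype.card_prod, Fintype.card_fin, sq]
    exact_mod_cast this
  have e6 : dSq k q U (Ka a U) + Ph k q f U =
      (dSq k q U (Ka a U) + ∑ α ∈ (Finset.univ : Finset (Col N)).erase (0, 0), D α) +
      (Ph k q f U - ∑ α ∈ (Finset.univ : Finset (Col N)).erase (0, 0), D α) := by ring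
  rw [e6]
  exact (abs_add_le _ _).trans (add_le_add h6 h9)

/-! ### the estimate of the integrals -/

lemma core_est [NeZero N] [NeZero n] [NeZero L] [NeZero l] [MeasurableSpace (SU N)]
    [BorelSpace (SU N)] (μ : Measure (SU N)) [IsProbabilityMeasure μ] (k : ℕ)
    (q : ZMod n × ZMod L → ZMod N) {β : ℝ} (hβ : 1 ≤ β)
    {P D dv dF : (Link n L l → SU N) → ℝ} {c K1 K2 K3 : ℝ} (hK1 : 0 ≤ K1) (hK2 : 0 ≤ K2)
    (hK3 : 0 ≤ K3) (hP : Continuous P) (hD : Continuous D) (hdv : Measurable dv)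
    (hdF : Measurable dF) (b1 : ∀ U, |D U + P U| ≤ K1 * ss k q U ^ 2)
    (b2 : ∀ U, |dv U| ≤ K2 * ss k q U) (b3 : ∀ U, |dF U + c| ≤ K3 * ss k q U)
    {g g' : ℝ → ℝ} (hg : Continuous g) (hg' : Continuous g') (hg1 : ∀ y, |g y| ≤ 1)
    (hg2 : ∀ y, |g' y| ≤ Real.sqrt β)
    (hid : ∫ U, (β * D U * g (P U) - dv U * g (P U) - g' (P U) * dF U) *
      Real.exp (-(β * Sq k q U)) ∂(Measure.pi fun _ : Link n L l => μ) = 0) :
    |∫ U, (Real.sqrt β * P U * g (P U) - c / Real.sqrt β * g' (P U)) *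
      Real.exp (-(β * Sq k q U)) ∂(Measure.pi fun _ : Link n L l => μ)| ≤
      4 * (K1 + K2 + K3) / Real.sqrt β * ∫ U, (1 + (β * Sq k q U) ^ 3) *
        Real.exp (-(β * Sq k q U)) ∂(Measure.pi fun _ : Link n L l => μ) := by
  obtain ⟨s, hs⟩ : ∃ s, s = Real.sqrt β := ⟨_, rfl⟩
  have hs1 : 1 ≤ s := by
    rw [hs]
    exact Real.one_le_sqrt.2 hβ
  have hs0 : 0 < s := by linarith
  have hss : s * s = β := by
    rw [hs]
    exact Real.mul_self_sqrt (by linarith)
  rw [← hs] at hg2 ⊢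
  obtain ⟨F, hF⟩ : ∃ F : (Link n L l → SU N) → ℝ, F = fun U =>
    s * P U * g (P U) - c / s * g' (P U) := ⟨_, rfl⟩
  obtain ⟨G, hG⟩ : ∃ G : (Link n L l → SU N) → ℝ, G = fun U =>
    1 / s * (β * D U * g (P U) - dv U * g (P U) - g' (P U) * dF U) := ⟨_, rfl⟩
  have hpt : ∀ U, |F U + G U| ≤ 4 * (K1 + K2 + K3) / s * (1 + (β * Sq k q U) ^ 3) := by
    intro U
    have hS : 0 ≤ Sq k q U := by
      have := two_Sq_nonneg k q U
      linarith
    obtain ⟨n1, -⟩ := num1 hβ hS
    change ss k q U ≤ _ at n1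
    rw [← hs] at n1
    have h0 := ss_nonneg k q U
    have hsq := ss_sq' k q U
    obtain ⟨R, hR⟩ : ∃ R, R = 4 / s * (1 + (β * Sq k q U) ^ 3) := ⟨_, rfl⟩
    rw [← hR] at n1
    have n2 : s * ss k q U ^ 2 ≤ R := by
      rw [hsq, hR]
      have h1 : 0 ≤ β * Sq k q U := by positivity
      have h2 : 2 * (β * Sq k q U) ≤ 4 * (1 + (β * Sq k q U) ^ 3) := by
        nlinarith [mul_nonneg h1 (sq_nonneg (β * Sq k q U - 1)), sq_nonneg (β * Sq k q U - 1)]
      have h3 : s * (2 * Sq k q U) = 2 * (β * Sq k q U) / s := by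
        rw [eq_div_iff hs0.ne', ← hss]
        ring
      rw [h3]
      calc 2 * (β * Sq k q U) / s ≤ 4 * (1 + (β * Sq k q U) ^ 3) / s :=
            div_le_div_of_nonneg_right h2 hs0.le
        _ = _ := by ring
    have hR0 : 0 ≤ R := h0.trans n1
    have e1 : F U + G U = s * (D U + P U) * g (P U) - dv U / s * g (P U) -
        g' (P U) / s * (dF U + c) := by
      rw [hF, hG, ← hss]
      field_simp
      ring
    have t1 : |s * (D U + P U) * g (P U)| ≤ K1 * R := by
      rw [abs_mul, abs_mul, abs_of_pos hs0]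
      calc s * |D U + P U| * |g (P U)| ≤ s * (K1 * ss k q U ^ 2) * 1 := by
            have := b1 U
            have := hg1 (P U)
            gcongr
        _ = K1 * (s * ss k q U ^ 2) := by ring
        _ ≤ K1 * R := mul_le_mul_of_nonneg_left n2 hK1
    have t2 : |dv U / s * g (P U)| ≤ K2 * R := by
      rw [abs_mul, abs_div, abs_of_pos hs0]
      calc |dv U| / s * |g (P U)| ≤ |dv U| / 1 * 1 := by
            have := hg1 (P U)
            gcongr
        _ = |dv U| := by ring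
        _ ≤ K2 * ss k q U := b2 U
        _ ≤ K2 * R := mul_le_mul_of_nonneg_left n1 hK2
    have t3 : |g' (P U) / s * (dF U + c)| ≤ K3 * R := by
      rw [abs_mul, abs_div, abs_of_pos hs0]
      have h4 : |g' (P U)| / s ≤ 1 := by
        rw [div_le_one hs0]
        exact hg2 _
      calc |g' (P U)| / s * |dF U + c| ≤ 1 * (K3 * ss k q U) :=
            mul_le_mul h4 (b3 U) (abs_nonneg _) zero_le_one
        _ = K3 * ss k q U := one_mul _
        _ ≤ K3 * R := mul_le_mul_of_nonneg_left n1 hK3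
    have e2 : 4 * (K1 + K2 + K3) / s * (1 + (β * Sq k q U) ^ 3) = K1 * R + K2 * R + K3 * R := by
      rw [hR]
      ring
    rw [e1, e2]
    have u1 := abs_sub (s * (D U + P U) * g (P U) - dv U / s * g (P U))
      (g' (P U) / s * (dF U + c))
    have u2 := abs_sub (s * (D U + P U) * g (P U)) (dv U / s * g (P U))
    linarith
  -- integrability
  have hSc := cont_Sq (N := N) (n := n) (L := L) (l := l) k q
  have hwc : Continuous fun U : Link n L l → SU N => Real.exp (-(β * Sq k q U)) :=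
    Real.continuous_exp.comp ((continuous_const.mul hSc).neg)
  have hint : ∀ {f : (Link n L l → SU N) → ℝ}, Continuous f →
      Integrable f (Measure.pi fun _ : Link n L l => μ) := fun hf =>
    hf.integrable_of_hasCompactSupport (HasCompactSupport.of_compactSpace _)
  have hgc : Continuous fun U => g (P U) := hg.comp hP
  have hgc' : Continuous fun U => g' (P U) := hg'.comp hP
  have hFc : Continuous F := by
    rw [hF]
    exact ((continuous_const.mul hP).mul hgc).sub (continuous_const.mul hgc')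
  have hGm : Measurable G := by
    rw [hG]
    exact measurable_const.mul ((((measurable_const.mul hD.measurable).mul hgc.measurable).sub
      (hdv.mul hgc.measurable)).sub (hgc'.measurable.mul hdF))
  have i1 : Integrable (fun U : Link n L l → SU N => F U * Real.exp (-(β * Sq k q U)))
      (Measure.pi fun _ : Link n L l => μ) := hint (hFc.mul hwc)
  have i3 : Integrable (fun U : Link n L l → SU N => (1 + (β * Sq k q U) ^ 3) *
      Real.exp (-(β * Sq k q U))) (Measure.pi fun _ : Link n L l => μ) :=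
    hint ((continuous_const.add ((continuous_const.mul hSc).pow 3)).mul hwc)
  have i2 : Integrable (fun U : Link n L l → SU N => G U * Real.exp (-(β * Sq k q U)))
      (Measure.pi fun _ : Link n L l => μ) := by
    refine Integrable.mono' (i1.norm.add (i3.const_mul (4 * (K1 + K2 + K3) / s)))
      (hGm.mul hwc.measurable).aestronglyMeasurable (Eventually.of_forall fun U => ?_)
    have hw := Real.exp_pos (-(β * Sq k q U))
    simp only [Pi.add_apply, Real.norm_eq_abs, abs_mul, abs_of_pos hw]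
    have h1 := hpt U
    have h2 := abs_sub (F U + G U) (F U)
    rw [add_sub_cancel_left] at h2
    have h3 := mul_le_mul_of_nonneg_right (h2.trans (add_le_add_left h1 _)) hw.le
    have h4 := mul_le_mul_of_nonneg_right h2 hw.le
    have h5 := mul_le_mul_of_nonneg_right h1 hw.le
    linarith
  have i4 : ∫ U, G U * Real.exp (-(β * Sq k q U)) ∂(Measure.pi fun _ : Link n L l => μ) = 0 := by
    have e : ∀ U : Link n L l → SU N, G U * Real.exp (-(β * Sq k q U)) =
        1 / s * ((β * D U * g (P U) - dv U * g (P U) - g' (P U) * dF U) *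
          Real.exp (-(β * Sq k q U))) := by
      intro U
      rw [hG]
      ring
    simp only [e]
    rw [integral_const_mul, hid, mul_zero]
  have key : ∫ U, (s * P U * g (P U) - c / s * g' (P U)) * Real.exp (-(β * Sq k q U))
      ∂(Measure.pi fun _ : Link n L l => μ) =
      ∫ U, (F U + G U) * Real.exp (-(β * Sq k q U)) ∂(Measure.pi fun _ : Link n L l => μ) := by
    have h1 := integral_add i1 i2
    rw [i4, add_zero] at h1
    have e : ∀ U : Link n L l → SU N, (F U + G U) * Real.exp (-(β * Sq k q U)) =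
        F U * Real.exp (-(β * Sq k q U)) + G U * Real.exp (-(β * Sq k q U)) := fun U => by ring
    simp only [e]
    rw [h1, hF]
  rw [key, ← integral_const_mul]
  refine (abs_integral_le_integral_abs).trans (integral_mono_of_nonneg
    (Eventually.of_forall fun U => abs_nonneg _) (i3.const_mul _)
    (Eventually.of_forall fun U => ?_))
  have hw := Real.exp_pos (-(β * Sq k q U))
  simp only [abs_mul, abs_of_pos hw]
  rw [← mul_assoc]
  exact mul_le_mul_of_nonneg_right (hpt U) hw.le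

/-- **piece R7** -/
theorem t_R7 (hQ4 : S_Q4) (hQ6 : S_Q6) (h1 : S_R1) (h2 : S_R2) (h3 : S_R3) (h4 : S_R4)
    (h4b : S_R4b) (h5 : S_R5) : S_R7 := by
  intro N _
  obtain ⟨C4, p4, hC4, q4⟩ := hQ4 N
  obtain ⟨C6, p6, hC6, q6⟩ := hQ6 N
  obtain ⟨c3, r3, hc3, k3⟩ := h3 N
  obtain ⟨c4, r4, hc4, k4⟩ := h4 N
  obtain ⟨cb, rb, hcb, kb⟩ := h4b N
  obtain ⟨c5, r5, hc5, k5⟩ := h5 N
  have hN0 : (0 : ℝ) < N := by exact_mod_cast NeZero.pos N
  obtain ⟨p, hp⟩ : ∃ p, p = p4 + p6 + r3 + r4 + rb + r5 + 4 := ⟨_, rfl⟩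
  have hCpos : 0 < 4 * (C6 * (N : ℝ) ^ 2 + N ^ 2 * (c3 * C4) + c5 * N ^ 2 +
      (c4 * N ^ 2 + cb * N ^ 2)) := by
    have g1 : 0 < C6 * (N : ℝ) ^ 2 := mul_pos hC6 (pow_pos hN0 2)
    have g2 : 0 ≤ (N : ℝ) ^ 2 * (c3 * C4) + c5 * N ^ 2 + (c4 * N ^ 2 + cb * N ^ 2) := by
      positivity
    linarith
  refine ⟨4 * (C6 * N ^ 2 + N ^ 2 * (c3 * C4) + c5 * N ^ 2 + (c4 * N ^ 2 + cb * N ^ 2)), p,
    hCpos, ?_⟩
  intro n L l k _ _ _ hk _ _ μ _ _ q J hHalf hSml h hh M hM β hβ t ht0 ht1 f hf c hc E hE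
  obtain ⟨v, hv⟩ : ∃ v, v = vol n L l := ⟨_, rfl⟩
  have hv1 : 1 ≤ v := hv ▸ vol_ge.1
  have hlv : (l : ℝ) ≤ v := hv ▸ vol_ge.2
  have hl0 : (0 : ℝ) < l := by exact_mod_cast NeZero.pos l
  have hv0 : 0 ≤ v := zero_le_one.trans hv1
  have hM0 : 0 ≤ M := (norm_nonneg _).trans (hM ((0, 0), 0, 0) 0 0 0)
  obtain ⟨m, hm⟩ : ∃ m : ℝ, m = (J.card : ℝ) := ⟨_, rfl⟩
  have hm0 : 0 ≤ m := hm ▸ Nat.cast_nonneg _
  obtain ⟨w, w1, w2, -⟩ := h2 N n L l k hk J (fun ι hι => (hHalf ι hι).1) hSml h hh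
  -- the bound for the potentials
  obtain ⟨Mw, hMw⟩ : ∃ Mw, Mw = N ^ 2 * v ^ 2 * M := ⟨_, rfl⟩
  have hMw0 : 0 ≤ Mw := by rw [hMw]; positivity
  have hw : ∀ ι ∈ J, ∀ i u, ‖w ι i u‖ ≤ Mw := by
    intro ι hι i u
    have hx := xm_ge (l := l) (hHalf ι hι).2 (hSml ι hι)
    have hx0 : 0 < xm N k l ι := lt_of_lt_of_le (by positivity) hx
    have hb := KC_bound hx0 (w ι i) (B := 8 * M) (fun u => by
      rw [w1 ι hι i]
      exact dh_bound (fun i j u => hM ι i j u) i u) u
    refine hb.trans ?_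
    rw [div_le_iff₀ hx0]
    have h1 : 8 * M ≤ N ^ 2 * (l : ℝ) ^ 2 * M * (16 / ((N : ℝ) ^ 2 * (l : ℝ) ^ 2)) := by
      have : N ^ 2 * (l : ℝ) ^ 2 * M * (16 / ((N : ℝ) ^ 2 * (l : ℝ) ^ 2)) = 16 * M := by
        field_simp
      rw [this]
      linarith
    refine h1.trans ?_
    rw [hMw]
    have h2 : (0 : ℝ) ≤ 16 / ((N : ℝ) ^ 2 * (l : ℝ) ^ 2) := by positivity
    gcongr
  -- the coefficients of the vector field
  obtain ⟨a, ha⟩ : ∃ a : Col N → Fin 4 → Site n L l → ℂ, a = mo k J w := ⟨_, rfl⟩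
  have haB : ∀ α j x, ‖a α j x‖ ≤ m * Mw := fun α j x => by
    rw [ha, hm]
    exact mo_bound hMw0 hw α j x
  have hfB : ∀ α i j x, ‖f α i j x‖ ≤ m * M := fun α i j x => by
    rw [hf, hm]
    exact md_bound hM0 hM α i j x
  have hpo : ∀ α : Col N, α ≠ (0, 0) → ∀ b x, po k f α b x = a α b x := fun α hα b x => by
    rw [ha, hf]
    exact w2 α hα b x
  have hprg : prg k f (po k f) = prg k f a := by
    unfold prg
    refine Finset.sum_congr rfl fun α hα => ?_
    have e5 : ∀ b, po k f α b = a α b := fun b =>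
      funext fun y => hpo α (Finset.ne_of_mem_erase hα) b y
    simp only [e5]
  obtain ⟨Kd, hKd, hdvs⟩ := k5 n L l k hk a (m * Mw) haB
  obtain ⟨dF, hdF, hdFm, -, hdvm, -, hid⟩ := h1 N n L l k μ q β f a Kd (c5 * (m * Mw)) hKd
  -- the constants
  obtain ⟨K1, hK1⟩ : ∃ K1, K1 = C6 * v ^ p6 * (m * Mw) +
    N ^ 2 * (c3 * v ^ r3 * (C4 * l ^ p4 * (m * M))) := ⟨_, rfl⟩
  obtain ⟨K2, hK2⟩ : ∃ K2, K2 = c5 * v ^ r5 * (m * Mw) := ⟨_, rfl⟩
  obtain ⟨K3, hK3⟩ : ∃ K3, K3 = c4 * v ^ r4 * (m * M * (m * Mw)) +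
    cb * m ^ 2 * v ^ rb * (M * Mw) := ⟨_, rfl⟩
  have hK10 : 0 ≤ K1 := by rw [hK1]; positivity
  have hK20 : 0 ≤ K2 := by rw [hK2]; positivity
  have hK30 : 0 ≤ K3 := by rw [hK3]; positivity
  have b1 : ∀ U, |dSq k q U (Ka a U) + Ph k q f U| ≤ K1 * ss k q U ^ 2 := by
    intro U
    have h0 := ss_nonneg k q U
    have g6 := q6 n L l k q U a (m * Mw) haB
    have g3 : ∀ α : Col N, α ≠ (0, 0) → ‖∑ x : Site n L l, ∑ i : Fin 4, ∑ j ∈ Finset.Ioi i,
        (nb k α i (pot k α (f α) j) x - nb k α j (pot k α (f α) i) x - f α i j x) *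
          conj (ps k q α U i j x)‖ ≤
        c3 * v ^ r3 * (C4 * l ^ p4 * ss k q U ^ 2 * (m * M)) := by
      intro α hα
      rw [hv]
      refine k3 n L l k hk α hα (f α) (ps k q α U) (m * M) (C4 * l ^ p4 * ss k q U ^ 2)
        (fun i j x => ?_) (fun i j x => ps_anti k q α U i j x) (fun i j x => hfB α i j x)
        (fun i j m x hij hjm hmi => q4 n L l k q U α x i j m hij hjm hmi)
      rw [hf]
      exact md_anti hh α i j x
    have g7 := dSq_bound (by positivity) hpo g6 g3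
    refine g7.trans (le_of_eq ?_)
    rw [hK1, ← hv]
    ring
  have b2 : ∀ U, |dvs Kd U| ≤ K2 * ss k q U := by
    intro U
    rw [hK2, hv]
    exact hdvs q U
  have b3 : ∀ U, |dF U + c| ≤ K3 * ss k q U := by
    intro U
    have g4 := k4 n L l k hk q U f a (m * M) (m * Mw) hfB haB (dF U) (hdF U)
    have gb : |prg k f (tw a U)| ≤ cb * (J.card : ℝ) ^ 2 * vol n L l ^ rb * (M * Mw) *
        ss k q U := by
      have := kb n L l k hk q U J hHalf hSml h w M Mw (fun ι _ i j u => hM ι i j u) hw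
      rw [hf, ha]
      exact this
    rw [← hm, ← hv] at gb
    rw [← hv] at g4
    have e1 : dF U + c = (dF U + (N / 2 : ℝ) * prg k f a - 1 / 2 * prg k f (tw a U)) +
        1 / 2 * prg k f (tw a U) := by
      rw [hc, hprg]
      ring
    rw [e1]
    refine (abs_add_le _ _).trans ?_
    rw [abs_mul, abs_of_pos (by norm_num : (0 : ℝ) < 1 / 2)]
    have h0 := ss_nonneg k q U
    have h8 : 0 ≤ cb * m ^ 2 * v ^ rb * (M * Mw) * ss k q U := by positivity
    have h9 : 1 / 2 * |prg k f (tw a U)| ≤ cb * m ^ 2 * v ^ rb * (M * Mw) * ss k q U := by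
      linarith
    calc _ ≤ c4 * v ^ r4 * (m * M * (m * Mw)) * ss k q U +
          cb * m ^ 2 * v ^ rb * (M * Mw) * ss k q U := add_le_add g4 h9
      _ = K3 * ss k q U := by rw [hK3]; ring
  -- the sum of the constants
  have hY1 : m * M ≤ (m + 1) ^ 4 * (1 + M) ^ 2 := by
    have a1 : m ≤ (m + 1) ^ 4 := by
      have : (m + 1) ^ 1 ≤ (m + 1) ^ 4 := pow_le_pow_right₀ (by linarith) (by norm_num)
      linarith [this, pow_one (m + 1)]
    have a2 : M ≤ (1 + M) ^ 2 := by nlinarith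
    exact mul_le_mul a1 a2 hM0 (by positivity)
  have hY2 : m ^ 2 * M ^ 2 ≤ (m + 1) ^ 4 * (1 + M) ^ 2 := by
    have a1 : m ^ 2 ≤ (m + 1) ^ 4 := by
      have h1 : (m + 1) ^ 2 ≤ (m + 1) ^ 4 := pow_le_pow_right₀ (by linarith) (by norm_num)
      nlinarith
    have a2 : M ^ 2 ≤ (1 + M) ^ 2 := by nlinarith
    exact mul_le_mul a1 a2 (by positivity) (by positivity)
  obtain ⟨Y, hY⟩ : ∃ Y, Y = (m + 1) ^ 4 * (1 + M) ^ 2 := ⟨_, rfl⟩
  rw [← hY] at hY1 hY2
  have hY0 : 0 ≤ Y := by rw [hY]; positivity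
  have hvp : ∀ a : ℕ, a ≤ p → v ^ a ≤ v ^ p := fun a ha => pow_le_pow_right₀ hv1 ha
  have hK : K1 + K2 + K3 ≤
      (C6 * N ^ 2 + N ^ 2 * (c3 * C4) + c5 * N ^ 2 + (c4 * N ^ 2 + cb * N ^ 2)) * (v ^ p * Y) := by
    have d1 : C6 * v ^ p6 * (m * Mw) ≤ C6 * N ^ 2 * (v ^ p * Y) := by
      calc C6 * v ^ p6 * (m * Mw) = C6 * N ^ 2 * (v ^ (p6 + 2) * (m * M)) := by
            rw [hMw]; ring
        _ ≤ C6 * N ^ 2 * (v ^ p * Y) := by
            have := hvp (p6 + 2) (by omega)
            gcongr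
    have d2 : N ^ 2 * (c3 * v ^ r3 * (C4 * l ^ p4 * (m * M))) ≤
        N ^ 2 * (c3 * C4) * (v ^ p * Y) := by
      calc (N : ℝ) ^ 2 * (c3 * v ^ r3 * (C4 * l ^ p4 * (m * M))) ≤
            N ^ 2 * (c3 * v ^ r3 * (C4 * v ^ p4 * (m * M))) := by gcongr
        _ = N ^ 2 * (c3 * C4) * (v ^ (r3 + p4) * (m * M)) := by ring
        _ ≤ N ^ 2 * (c3 * C4) * (v ^ p * Y) := by
            have := hvp (r3 + p4) (by omega)
            gcongr
    have d3 : K2 ≤ c5 * N ^ 2 * (v ^ p * Y) := by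
      calc K2 = c5 * N ^ 2 * (v ^ (r5 + 2) * (m * M)) := by
            rw [hK2, hMw]; ring
        _ ≤ c5 * N ^ 2 * (v ^ p * Y) := by
            have := hvp (r5 + 2) (by omega)
            gcongr
    have d4 : c4 * v ^ r4 * (m * M * (m * Mw)) ≤ c4 * N ^ 2 * (v ^ p * Y) := by
      calc c4 * v ^ r4 * (m * M * (m * Mw)) = c4 * N ^ 2 * (v ^ (r4 + 2) * (m ^ 2 * M ^ 2)) := by
            rw [hMw]; ring
        _ ≤ c4 * N ^ 2 * (v ^ p * Y) := by
            have := hvp (r4 + 2) (by omega)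
            gcongr
    have d5 : cb * m ^ 2 * v ^ rb * (M * Mw) ≤ cb * N ^ 2 * (v ^ p * Y) := by
      calc cb * m ^ 2 * v ^ rb * (M * Mw) = cb * N ^ 2 * (v ^ (rb + 2) * (m ^ 2 * M ^ 2)) := by
            rw [hMw]; ring
        _ ≤ cb * N ^ 2 * (v ^ p * Y) := by
            have := hvp (rb + 2) (by omega)
            gcongr
    rw [hK1, hK3]
    linarith
  -- the two functions
  obtain ⟨s, hs⟩ : ∃ s, s = Real.sqrt β := ⟨_, rfl⟩
  have hs1 : 1 ≤ s := by
    rw [hs]
    exact Real.one_le_sqrt.2 hβ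
  have hs0 : 0 < s := by linarith
  obtain ⟨I3, hI3⟩ : ∃ I3, I3 = ∫ U, (1 + (β * Sq k q U) ^ 3) *
    Real.exp (-(β * Sq k q U)) ∂(Measure.pi fun _ : Link n L l => μ) := ⟨_, rfl⟩
  have hI0 : 0 ≤ I3 := by
    rw [hI3]
    refine integral_nonneg fun U => ?_
    have hS : 0 ≤ Sq k q U := by
      have := two_Sq_nonneg k q U
      linarith
    positivity
  have hEK : 4 * (K1 + K2 + K3) / s * I3 ≤ E := by
    rw [hE, ← hI3, ← hm, ← hv, ← hs]
    calc 4 * (K1 + K2 + K3) / s * I3 ≤ 4 * ((C6 * N ^ 2 + N ^ 2 * (c3 * C4) + c5 * N ^ 2 +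
          (c4 * N ^ 2 + cb * N ^ 2)) * (v ^ p * Y)) / s * I3 := by gcongr
      _ = _ := by
        rw [hY]
        ring
  have hPc := cont_Ph (N := N) k q f
  have hDc : Continuous fun U : Link n L l → SU N => dSq k q U (Ka a U) :=
    cont_dSq k q fun e => cont_Ka a e
  have hSc := cont_Sq (N := N) (n := n) (L := L) (l := l) k q
  have hwc : Continuous fun U : Link n L l → SU N => Real.exp (-(β * Sq k q U)) :=
    Real.continuous_exp.comp ((continuous_const.mul hSc).neg)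
  have hint : ∀ {f : (Link n L l → SU N) → ℝ}, Continuous f →
      Integrable f (Measure.pi fun _ : Link n L l => μ) := fun hf =>
    hf.integrable_of_hasCompactSupport (HasCompactSupport.of_compactSpace _)
  have hlin : Continuous fun y : ℝ => t * (s * y) :=
    continuous_const.mul (continuous_const.mul continuous_id)
  have hder : ∀ y : ℝ, HasDerivAt (fun y : ℝ => t * (s * y)) (t * s) y := by
    intro y
    have := ((hasDerivAt_id y).const_mul s).const_mul t
    simpa using this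
  have hts : |t * s| ≤ s := by
    rw [abs_of_nonneg (by positivity)]
    nlinarith
  have hcosm : Continuous fun U : Link n L l → SU N =>
      Real.cos (t * (s * Ph k q f U)) := Real.continuous_cos.comp (hlin.comp hPc)
  have hsinm : Continuous fun U : Link n L l → SU N =>
      Real.sin (t * (s * Ph k q f U)) := Real.continuous_sin.comp (hlin.comp hPc)
  rw [← hs]
  constructor
  · -- the cosine
    have gd : ∀ y, HasDerivAt (fun y : ℝ => Real.cos (t * (s * y)))
        (-Real.sin (t * (s * y)) * (t * s)) y := fun y => (hder y).cos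
    have gc' : Continuous fun y : ℝ => -Real.sin (t * (s * y)) * (t * s) :=
      ((Real.continuous_sin.comp hlin).neg).mul continuous_const
    have key := core_est μ k q hβ hK10 hK20 hK30 hPc hDc hdvm hdFm b1 b2 b3
      (g := fun y => Real.cos (t * (s * y))) (g' := fun y => -Real.sin (t * (s * y)) * (t * s))
      (Real.continuous_cos.comp hlin) gc' (fun y => Real.abs_cos_le_one _) (fun y => by
        rw [abs_mul, abs_neg, ← hs]
        have := Real.abs_sin_le_one (t * (s * y))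
        have := abs_nonneg (t * s)
        nlinarith) (by
        have := hid (fun y => Real.cos (t * (s * y)))
          (fun y => -Real.sin (t * (s * y)) * (t * s)) gd gc'
        exact this)
    rw [← hs, ← hI3] at key
    refine le_trans (le_of_eq ?_) (key.trans hEK)
    congr 1
    have j1 : Integrable (fun U : Link n L l → SU N => s * Ph k q f U *
        Real.cos (t * (s * Ph k q f U)) * Real.exp (-(β * Sq k q U)))
        (Measure.pi fun _ : Link n L l => μ) :=
      hint (((continuous_const.mul hPc).mul hcosm).mul hwc)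
    have j2 : Integrable (fun U : Link n L l → SU N => t * c *
        (Real.sin (t * (s * Ph k q f U)) * Real.exp (-(β * Sq k q U))))
        (Measure.pi fun _ : Link n L l => μ) :=
      hint (continuous_const.mul (hsinm.mul hwc))
    rw [← integral_const_mul, ← integral_add j1 j2]
    refine integral_congr_ae (Eventually.of_forall fun U => ?_)
    simp only
    field_simp
    ring
  · -- the sine
    have gd : ∀ y, HasDerivAt (fun y : ℝ => Real.sin (t * (s * y)))
        (Real.cos (t * (s * y)) * (t * s)) y := fun y => (hder y).sin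
    have gc' : Continuous fun y : ℝ => Real.cos (t * (s * y)) * (t * s) :=
      (Real.continuous_cos.comp hlin).mul continuous_const
    have key := core_est μ k q hβ hK10 hK20 hK30 hPc hDc hdvm hdFm b1 b2 b3
      (g := fun y => Real.sin (t * (s * y))) (g' := fun y => Real.cos (t * (s * y)) * (t * s))
      (Real.continuous_sin.comp hlin) gc' (fun y => Real.abs_sin_le_one _) (fun y => by
        rw [abs_mul, ← hs]
        have := Real.abs_cos_le_one (t * (s * y))
        have := abs_nonneg (t * s)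
        nlinarith) (by
        have := hid (fun y => Real.sin (t * (s * y)))
          (fun y => Real.cos (t * (s * y)) * (t * s)) gd gc'
        exact this)
    rw [← hs, ← hI3] at key
    refine le_trans (le_of_eq ?_) (key.trans hEK)
    congr 1
    have j1 : Integrable (fun U : Link n L l → SU N => s * Ph k q f U *
        Real.sin (t * (s * Ph k q f U)) * Real.exp (-(β * Sq k q U)))
        (Measure.pi fun _ : Link n L l => μ) :=
      hint (((continuous_const.mul hPc).mul hsinm).mul hwc)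
    have j2 : Integrable (fun U : Link n L l → SU N => t * c *
        (Real.cos (t * (s * Ph k q f U)) * Real.exp (-(β * Sq k q U))))
        (Measure.pi fun _ : Link n L l => μ) :=
      hint (continuous_const.mul (hcosm.mul hwc))
    rw [← integral_const_mul, ← integral_sub j1 j2]
    refine integral_congr_ae (Eventually.of_forall fun U => ?_)
    simp only
    field_simp

end

end Run7.h882.QF
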